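import Pool.Agent.Q86.EM.Stm3

/-!
# Project EM/FS of helper86: job FBB (helper193)
-/

set_option autoImplicit false

namespace Pool.Agent.Q193.EM

open MeasureTheory Set Filter Topology
open scoped InnerProductSpace ContDiff
open Pool.Agent.Q86.EM
open Pool.Agent.W695.KH (EV VV)
open Pool.Agent.Q86.FIB (Sp EK spl Std oo lp CovF FibreP om dens vol fib pd sv gT gZ WIneq lin
  lp_int lp_norm_sq norm_fderiv_sq comp_smooth)

theorem var_cmp {a b m a' b' v' η R v L : ℝ} (hv : 0 < v) (hv' : v ≤ v') (hη : 0 ≤ η)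
    (hη2 : η ≤ v / 2) (hR : 1 ≤ R) (hL : 0 ≤ L) (ha : |a - a'| ≤ L ^ 2 * η)
    (hb : |b - b'| ≤ L * η) (hm : |m - v'| ≤ η) (ha' : |a'| ≤ (2 * R * L) ^ 2 * v')
    (hb' : |b'| ≤ 2 * R * L * v') :
    |(a / m - (b / m) ^ 2) - (a' / v' - (b' / v') ^ 2)| ≤ 60 * R ^ 2 / v * η * L ^ 2 := by
  have hv0 : 0 < v' := by linarith
  have hm1 : v / 2 ≤ m := by
    have := (abs_le.1 hm).1
    linarith
  have hm0 : 0 < m := by linarith
  obtain ⟨Y, hY⟩ : ∃ Y : ℝ, Y = 2 * η / v := ⟨_, rfl⟩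
  have hY0 : 0 ≤ Y := by rw [hY]; positivity
  have hY1 : Y ≤ 1 := by
    rw [hY, div_le_one hv]
    linarith
  have hX : η / m ≤ Y := by
    rw [hY, div_le_div_iff₀ hm0 hv]
    nlinarith
  have e1 : a / m - a' / v' = (a - a') / m + (a' / v') * ((v' - m) / m) := by
    field_simp
    ring
  have e2 : b / m - b' / v' = (b - b') / m + (b' / v') * ((v' - m) / m) := by
    field_simp
    ring
  have q1 : |a' / v'| ≤ (2 * R * L) ^ 2 := by
    rw [abs_div, abs_of_pos hv0, div_le_iff₀ hv0]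
    exact ha'
  have q2 : |b' / v'| ≤ 2 * R * L := by
    rw [abs_div, abs_of_pos hv0, div_le_iff₀ hv0]
    exact hb'
  have u1 : |(a - a') / m| ≤ L ^ 2 * Y := by
    rw [abs_div, abs_of_pos hm0]
    calc |a - a'| / m ≤ L ^ 2 * η / m := by gcongr
      _ = L ^ 2 * (η / m) := by ring
      _ ≤ _ := by gcongr
  have u2 : |(b - b') / m| ≤ L * Y := by
    rw [abs_div, abs_of_pos hm0]
    calc |b - b'| / m ≤ L * η / m := by gcongr
      _ = L * (η / m) := by ring
      _ ≤ _ := by gcongr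
  have u3 : |(v' - m) / m| ≤ Y := by
    rw [abs_div, abs_of_pos hm0, abs_sub_comm]
    calc |m - v'| / m ≤ η / m := by gcongr
      _ ≤ _ := hX
  have w1 : |a / m - a' / v'| ≤ L ^ 2 * Y + (2 * R * L) ^ 2 * Y := by
    rw [e1]
    refine (abs_add_le _ _).trans (add_le_add u1 ?_)
    rw [abs_mul]
    exact mul_le_mul q1 u3 (abs_nonneg _) (by positivity)
  have w2 : |b / m - b' / v'| ≤ L * Y + 2 * R * L * Y := by
    rw [e2]
    refine (abs_add_le _ _).trans (add_le_add u2 ?_)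
    rw [abs_mul]
    exact mul_le_mul q2 u3 (abs_nonneg _) (by positivity)
  have w3 : |b / m + b' / v'| ≤ (1 + 6 * R) * L := by
    have h1 : b / m + b' / v' = (b / m - b' / v') + 2 * (b' / v') := by ring
    rw [h1]
    refine (abs_add_le _ _).trans ?_
    rw [abs_mul, abs_of_pos (by norm_num : (0 : ℝ) < 2)]
    have h2 : L * Y + 2 * R * L * Y ≤ L + 2 * R * L := by
      have : (L + 2 * R * L) * Y ≤ (L + 2 * R * L) * 1 := by
        refine mul_le_mul_of_nonneg_left hY1 ?_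
        positivity
      linarith
    linarith
  have h3 : (a / m - (b / m) ^ 2) - (a' / v' - (b' / v') ^ 2) =
      (a / m - a' / v') - (b / m - b' / v') * (b / m + b' / v') := by ring
  rw [h3]
  refine (abs_sub _ _).trans ?_
  rw [abs_mul]
  have h4 : |b / m - b' / v'| * |b / m + b' / v'| ≤ (L * Y + 2 * R * L * Y) * ((1 + 6 * R) * L) :=
    mul_le_mul w2 w3 (abs_nonneg _) (by positivity)
  have h5 : 60 * R ^ 2 / v * η * L ^ 2 = 30 * R ^ 2 * (Y * L ^ 2) := by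
    rw [hY]
    ring
  rw [h5]
  have h6 : 0 ≤ Y * L ^ 2 := by positivity
  have h7 : (1 + 4 * R ^ 2) + (1 + 2 * R) * (1 + 6 * R) ≤ 30 * R ^ 2 := by nlinarith
  calc |a / m - a' / v'| + |b / m - b' / v'| * |b / m + b' / v'|
      ≤ (L ^ 2 * Y + (2 * R * L) ^ 2 * Y) + (L * Y + 2 * R * L * Y) * ((1 + 6 * R) * L) := add_le_add w1 h4
    _ = ((1 + 4 * R ^ 2) + (1 + 2 * R) * (1 + 6 * R)) * (Y * L ^ 2) := by ring
    _ ≤ _ := mul_le_mul_of_nonneg_right h7 h6

theorem int_cmp {n : ℕ} {S : Set (Eu (Fin n))} (hS : IsCompact S) {Z : Eu (Fin n) → ℝ}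
    (hZc : Continuous Z) (hZ : ∀ z, 0 < Z z) {η : ℝ}
    (hint : Integrable fun z => (1 + ‖z‖) ^ 4 * Z z)
    (hη : ∫ z, (1 + ‖z‖) ^ 4 * |Z z - S.indicator (fun _ => 1) z| ≤ η)
    {F : Eu (Fin n) → ℝ} (hF : Continuous F) {c : ℝ} (hc : 0 ≤ c)
    (hb : ∀ z, |F z| ≤ c * (1 + ‖z‖) ^ 4) :
    Integrable (fun z => F z * Z z) ∧ |(∫ z, F z * Z z) - ∫ z in S, F z| ≤ c * η := by
  have hSm : MeasurableSet S := hS.measurableSet
  have hFZ : Integrable (fun z => F z * Z z) := by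
    refine (hint.const_mul c).mono' (hF.mul hZc).aestronglyMeasurable (Eventually.of_forall fun z => ?_)
    rw [Real.norm_eq_abs, abs_mul, abs_of_pos (hZ z), ← mul_assoc]
    exact mul_le_mul_of_nonneg_right (hb z) (hZ z).le
  have ind_eq : ∀ G : Eu (Fin n) → ℝ, (fun z => G z * S.indicator (fun _ => (1 : ℝ)) z) = S.indicator G := by
    intro G
    funext z
    by_cases hz : z ∈ S
    · rw [indicator_of_mem hz, indicator_of_mem hz, mul_one]
    · rw [indicator_of_notMem hz, indicator_of_notMem hz, mul_zero]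
  have hI : ∀ G : Eu (Fin n) → ℝ, Continuous G → Integrable (fun z => G z * S.indicator (fun _ => (1 : ℝ)) z) := by
    intro G hG
    rw [ind_eq, integrable_indicator_iff hSm]
    exact hG.continuousOn.integrableOn_compact hS
  have hpc : Continuous fun z : Eu (Fin n) => (1 + ‖z‖) ^ 4 := by fun_prop
  have hJ : Integrable (fun z => (1 + ‖z‖) ^ 4 * |Z z - S.indicator (fun _ => 1) z|) := by
    refine ((hint.sub (hI _ hpc)).abs).congr (Eventually.of_forall fun z => ?_)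
    show |(1 + ‖z‖) ^ 4 * Z z - (1 + ‖z‖) ^ 4 * S.indicator (fun _ => 1) z| = _
    rw [← mul_sub, abs_mul, abs_of_nonneg (by positivity : (0 : ℝ) ≤ (1 + ‖z‖) ^ 4)]
  refine ⟨hFZ, ?_⟩
  have h1 : ∫ z in S, F z = ∫ z, F z * S.indicator (fun _ => (1 : ℝ)) z := by
    rw [← integral_indicator hSm, ind_eq]
  rw [h1, ← integral_sub hFZ (hI F hF)]
  refine (abs_integral_le_integral_abs).trans ?_
  calc ∫ z, |F z * Z z - F z * S.indicator (fun _ => (1 : ℝ)) z|
      ≤ ∫ z, c * ((1 + ‖z‖) ^ 4 * |Z z - S.indicator (fun _ => 1) z|) := by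
        refine integral_mono ((hFZ.sub (hI F hF)).abs) (hJ.const_mul c) fun z => ?_
        show |F z * Z z - F z * S.indicator (fun _ => (1 : ℝ)) z| ≤ _
        rw [← mul_sub, abs_mul, ← mul_assoc]
        exact mul_le_mul_of_nonneg_right (hb z) (abs_nonneg _)
    _ = c * ∫ z, (1 + ‖z‖) ^ 4 * |Z z - S.indicator (fun _ => 1) z| := integral_const_mul _ _
    _ ≤ c * η := mul_le_mul_of_nonneg_left hη hc

theorem one_le_pw {n : ℕ} (z : Eu (Fin n)) : (1 : ℝ) ≤ 1 + ‖z‖ := by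
  have := norm_nonneg z
  linarith

theorem vv_cmp {n : ℕ} {S : Set (Eu (Fin n))} (hS : IsCompact S) {Z : Eu (Fin n) → ℝ}
    (hZc : Continuous Z) (hZ : ∀ z, 0 < Z z) {η : ℝ}
    (hint : Integrable fun z => (1 + ‖z‖) ^ 4 * Z z)
    (hη : ∫ z, (1 + ‖z‖) ^ 4 * |Z z - S.indicator (fun _ => 1) z| ≤ η)
    {v R : ℝ} (hv : 0 < v) (hvS : v ≤ (volume S).toReal) (hη0 : 0 ≤ η) (hη2 : η ≤ v / 2)
    (hR : 1 ≤ R) (hSR : ∀ z ∈ S, ‖z‖ ≤ R)
    {F : Eu (Fin n) → ℝ} (hF : Continuous F) {L : ℝ} (hL : 0 ≤ L)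
    (hb : ∀ z, |F z| ≤ L * (1 + ‖z‖)) :
    |((∫ z, F z ^ 2 * Z z) / (∫ z, Z z) - ((∫ z, F z * Z z) / (∫ z, Z z)) ^ 2) - VV S F| ≤
      60 * R ^ 2 / v * η * L ^ 2 := by
  have hfin : volume S < ⊤ := hS.measure_lt_top
  have b1 : ∀ z : Eu (Fin n), (1 + ‖z‖) ≤ (1 + ‖z‖) ^ 4 := fun z => le_self_pow₀ (one_le_pw z) (by norm_num)
  have b2 : ∀ z : Eu (Fin n), (1 + ‖z‖) ^ 2 ≤ (1 + ‖z‖) ^ 4 := fun z =>
    pow_le_pow_right₀ (one_le_pw z) (by norm_num)
  have b0 : ∀ z : Eu (Fin n), 1 ≤ (1 + ‖z‖) ^ 4 := fun z => one_le_pow₀ (one_le_pw z)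
  have c1 := (int_cmp hS hZc hZ hint hη hF hL (fun z => (hb z).trans
    (mul_le_mul_of_nonneg_left (b1 z) hL))).2
  have c2 := (int_cmp hS hZc hZ hint hη (hF.pow 2) (c := L ^ 2) (by positivity) (fun z => by
    have h1 : |(F ^ 2) z| ≤ (L * (1 + ‖z‖)) ^ 2 := by
      show |F z ^ 2| ≤ _
      rw [abs_pow]
      exact pow_le_pow_left₀ (abs_nonneg _) (hb z) 2
    refine h1.trans ?_
    rw [mul_pow]
    exact mul_le_mul_of_nonneg_left (b2 z) (by positivity))).2
  have c0 := (int_cmp hS hZc hZ hint hη (F := fun _ => 1) continuous_const (c := 1) zero_le_one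
    (fun z => by
      rw [abs_one, one_mul]
      exact b0 z)).2
  have e0 : ∫ z, (1 : ℝ) * Z z = ∫ z, Z z := by simp_rw [one_mul]
  have e1 : ∫ _z in S, (1 : ℝ) = (volume S).toReal := by
    rw [setIntegral_const]
    simp [Measure.real]
  rw [e0, e1, one_mul] at c0
  have hbS : ∀ z ∈ S, |F z| ≤ 2 * R * L := by
    intro z hz
    have h1 := hSR z hz
    calc |F z| ≤ L * (1 + ‖z‖) := hb z
      _ ≤ L * (2 * R) := mul_le_mul_of_nonneg_left (by linarith) hL
      _ = 2 * R * L := by ring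
  have d1 : |∫ z in S, F z| ≤ 2 * R * L * (volume S).toReal := by
    have := norm_setIntegral_le_of_norm_le_const (μ := volume) (f := F) (C := 2 * R * L) hfin
      (fun z hz => by rw [Real.norm_eq_abs]; exact hbS z hz)
    rwa [Real.norm_eq_abs] at this
  have d2 : |∫ z in S, F z ^ 2| ≤ (2 * R * L) ^ 2 * (volume S).toReal := by
    have := norm_setIntegral_le_of_norm_le_const (μ := volume) (f := fun z => F z ^ 2)
      (C := (2 * R * L) ^ 2) hfin
      (fun z hz => by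
        rw [Real.norm_eq_abs, abs_pow]
        exact pow_le_pow_left₀ (abs_nonneg _) (hbS z hz) 2)
    rwa [Real.norm_eq_abs] at this
  exact var_cmp hv hvS hη0 hη2 hR hL c2 c1 c0 d2 d1

theorem pt_norm (n : ℕ) (t : ℝ) (z : Eu (Fin n)) : ‖z‖ ≤ ‖pt n t z‖ := by
  have h1 : ‖z‖ ^ 2 ≤ ‖pt n t z‖ ^ 2 := by
    rw [EuclideanSpace.norm_sq_eq, EuclideanSpace.norm_sq_eq, Fintype.sum_sum_type]
    have h2 : ∀ i, pt n t z (Sum.inr i) = z i := fun i => rfl
    simp_rw [h2]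
    have h3 : 0 ≤ ∑ i : Fin 1, ‖pt n t z (Sum.inl i)‖ ^ 2 := Finset.sum_nonneg fun _ _ => by positivity
    linarith
  exact (pow_le_pow_iff_left₀ (norm_nonneg _) (norm_nonneg _) two_ne_zero).1 h1

theorem pt_cont (n : ℕ) (t : ℝ) : Continuous (pt n t) :=
  (spl 1 n).symm.continuous.comp (continuous_const.prodMk (lp n).continuous)

theorem pt_comb (n : ℕ) (t s : ℝ) (a b : Eu (Fin n)) :
    pt n t ((1 - s) • a + s • b) = (1 - s) • pt n t a + s • pt n t b := by
  unfold pt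
  rw [← map_smul, ← map_smul, ← map_add]
  congr 1
  rw [Prod.smul_mk, Prod.smul_mk, Prod.mk_add_mk]
  congr 1
  rw [← add_smul]
  simp

theorem lip_bd {n : ℕ} {f : Eu (Fin n) → ℝ} (hf : ContDiff ℝ 1 f) (h1 : ∀ x, ‖fderiv ℝ f x‖ ≤ 1)
    (z : Eu (Fin n)) : |f z - f 0| ≤ 1 * (1 + ‖z‖) := by
  have h2 := (convex_univ : Convex ℝ (univ : Set (Eu (Fin n)))).norm_image_sub_le_of_norm_fderiv_le
    (f := f) (C := 1) (x := 0) (y := z) (fun x _ => hf.differentiable one_ne_zero x)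
    (fun x _ => h1 x) (mem_univ _) (mem_univ _)
  rw [sub_zero, Real.norm_eq_abs] at h2
  linarith

/-- **JOB FBB** -/
theorem fbb (h1 : S_EMPc) (h2 : S_SLG) (h3 : S_SLC) : S_FBB := by
  obtain ⟨C, hC, hemp⟩ := h1
  refine ⟨max C 1, le_max_right _ _, ?_⟩
  intro n D hD k hk a b hab hqa hqb hkls ε hε
  obtain ⟨hsec, v, hv, hvol⟩ := h2 n D hD a b hab hqa hqb
  obtain ⟨R₀, hR₀⟩ := hD.cpt.isBounded.subset_closedBall (0 : EK 1 n)
  obtain ⟨R, hRdef⟩ : ∃ R : ℝ, R = max R₀ 1 := ⟨_, rfl⟩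
  have hR : 1 ≤ R := by rw [hRdef]; exact le_max_right _ _
  have hDR : ∀ x ∈ D, ‖x‖ ≤ R := fun x hx => by
    have := hR₀ hx
    rw [mem_closedBall_zero_iff] at this
    rw [hRdef]
    exact this.trans (le_max_left _ _)
  obtain ⟨K, hK⟩ : ∃ K : ℝ, K = 60 * R ^ 2 / v := ⟨_, rfl⟩
  have hK0 : 0 < K := by rw [hK]; positivity
  obtain ⟨η, hηd⟩ : ∃ η : ℝ, η = min (v / 2) (ε / ((k + 1) * K)) := ⟨_, rfl⟩
  have hη0 : 0 < η := by
    rw [hηd]
    refine lt_min (by positivity) (by positivity)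
  have hη2 : η ≤ v / 2 := by rw [hηd]; exact min_le_left _ _
  have hη3 : (k + 1) * K * η ≤ ε := by
    have : η ≤ ε / ((k + 1) * K) := by rw [hηd]; exact min_le_right _ _
    rwa [le_div_iff₀ (by positivity), mul_comm] at this
  obtain ⟨A₀, hA₀, hslc⟩ := h3 n D hD a b hab hqa hqb η hη0
  refine ⟨A₀, hA₀, ?_⟩
  intro A hA U hU t ht σ hσ hcov φ hφ hφs
  obtain ⟨hint, hle⟩ := hslc A hA U hU t ht
  obtain ⟨hcb, -⟩ := hsec t ht
  have hvt := hvol t ht
  have hSR : ∀ z ∈ sl D t, ‖z‖ ≤ R := fun z hz => (pt_norm n t z).trans (hDR _ hz)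
  obtain ⟨Z, hZ⟩ : ∃ Z : Eu (Fin n) → ℝ, Z = fun z => Real.exp (-U (pt n t z)) := ⟨_, rfl⟩
  have hUc : Continuous U := hU.htg.1.continuous
  have hZc : Continuous Z := by
    rw [hZ]
    exact Real.continuous_exp.comp (hUc.comp (pt_cont n t)).neg
  have hZpos : ∀ z, 0 < Z z := fun z => by rw [hZ]; exact Real.exp_pos _
  have hint' : Integrable fun z => (1 + ‖z‖) ^ 4 * Z z := by rw [hZ]; exact hint
  have hle' : ∫ z, (1 + ‖z‖) ^ 4 * |Z z - (sl D t).indicator (fun _ => 1) z| ≤ η := by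
    rw [hZ]; exact hle
  have hcmp := fun {F : Eu (Fin n) → ℝ} (hF : Continuous F) {c : ℝ} (hc : 0 ≤ c)
    (hb : ∀ z, |F z| ≤ c * (1 + ‖z‖) ^ 4) => int_cmp hcb.cpt hZc hZpos hint' hle' hF hc hb
  have hvv := fun {F : Eu (Fin n) → ℝ} (hF : Continuous F) {L : ℝ} (hL : 0 ≤ L)
    (hb : ∀ z, |F z| ≤ L * (1 + ‖z‖)) =>
      vv_cmp hcb.cpt hZc hZpos hint' hle' hv hvt hη0.le hη2 hR hSR hF hL hb
  rw [← hK] at hvv
  have b0 : ∀ z : Eu (Fin n), 1 ≤ (1 + ‖z‖) ^ 4 := fun z => one_le_pow₀ (one_le_pw z)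
  -- the mass
  have hZi : Integrable Z := by
    have := (hcmp (F := fun _ => 1) continuous_const (c := 1) zero_le_one (fun z => by
      rw [abs_one, one_mul]
      exact b0 z)).1
    simpa using this
  obtain ⟨m, hm⟩ : ∃ m : ℝ, m = ∫ z, Z z := ⟨_, rfl⟩
  have hm0 : 0 < m := by
    rw [hm]
    refine (integral_pos_iff_support_of_nonneg (fun z => (hZpos z).le) hZi).2 ?_
    have : Function.support Z = univ := by
      ext z
      simp [(hZpos z).ne']
    rw [this]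
    exact Measure.measure_univ_pos.2 (NeZero.ne _)
  rw [← hm] at hvv
  have hlp : ∀ H : Sp n → ℝ, ∫ z, H z * Real.exp (-onSp U (oo t, z)) = ∫ x, H (lp n x) * Z x := by
    intro H
    have := lp_int (m := n) (fun z => H z * Real.exp (-onSp U (oo t, z)))
    rw [← this, hZ]
    rfl
  have hdens : dens (onSp U) (oo t) = m := by
    unfold dens
    have := hlp (fun _ => 1)
    simp only [one_mul] at this
    rw [this, hm]
  -- the covariance
  have hCV : CV (sl D t) (σ + K * η) := by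
    intro θ
    have hF : Continuous fun x : Eu (Fin n) => ⟪θ, x⟫_ℝ := continuous_const.inner continuous_id
    have hb : ∀ z : Eu (Fin n), |⟪θ, z⟫_ℝ| ≤ ‖θ‖ * (1 + ‖z‖) := fun z => by
      refine (abs_real_inner_le_norm θ z).trans ?_
      have := norm_nonneg θ
      have := norm_nonneg z
      nlinarith
    have hc := abs_le.1 (hvv hF (norm_nonneg θ) hb)
    have hcv := hcov (lp n θ)
    rw [hdens] at hcv
    unfold fib at hcv
    simp only at hcv
    rw [hlp (fun z => (∑ i, lp n θ i * z i) ^ 2), hlp (fun z => ∑ i, lp n θ i * z i), ← lp_norm_sq] at hcv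
    have hin : ∀ x : Eu (Fin n), ∑ i, lp n θ i * lp n x i = ⟪θ, x⟫_ℝ := by
      intro x
      rw [PiLp.inner_apply]
      refine Finset.sum_congr rfl fun i _ => ?_
      show θ i * x i = _
      simp [mul_comm]
    simp_rw [hin] at hcv
    have h5 : (∫ z, ⟪θ, z⟫_ℝ ^ 2 * Z z) / m - ((∫ z, ⟪θ, z⟫_ℝ * Z z) / m) ^ 2 ≤ σ * ‖θ‖ ^ 2 := by
      have h6 : (∫ z, ⟪θ, z⟫_ℝ ^ 2 * Z z) / m - ((∫ z, ⟪θ, z⟫_ℝ * Z z) / m) ^ 2 =
          (m * (∫ z, ⟪θ, z⟫_ℝ ^ 2 * Z z) - (∫ z, ⟪θ, z⟫_ℝ * Z z) ^ 2) / m ^ 2 := by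
        field_simp
      rw [h6, div_le_iff₀ (by positivity)]
      exact hcv
    have := hc.1
    nlinarith
  have hPI := hkls t ht _ hCV
  obtain ⟨D₁, hD₁⟩ : ∃ D₁ : ℝ, D₁ = k * (σ + K * η) + K * η := ⟨_, rfl⟩
  have hD₁0 : 0 ≤ D₁ := by rw [hD₁]; positivity
  have hD₁le : D₁ ≤ k * σ + ε := by
    rw [hD₁]
    nlinarith
  -- the density
  obtain ⟨g, hg⟩ : ∃ g : Eu (Fin n) → ℝ, g = fun z => Real.exp (-U (pt n t z) - Real.log m) := ⟨_, rfl⟩
  have hgZ : ∀ z, g z = Z z / m := fun z => by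
    rw [hg, hZ]
    simp only
    rw [Real.exp_sub, Real.exp_log hm0]
  have hgc : Continuous g := by
    rw [hg]
    exact Real.continuous_exp.comp ((hUc.comp (pt_cont n t)).neg.sub continuous_const)
  have hgi : ∀ H : Eu (Fin n) → ℝ, ∫ x, H x * g x = (∫ x, H x * Z x) / m := by
    intro H
    simp_rw [hgZ, ← mul_div_assoc]
    exact integral_div _ _
  have hgI : ∀ H : Eu (Fin n) → ℝ, Integrable (fun x => H x * Z x) → Integrable (fun x => H x * g x) := by
    intro H hH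
    simp_rw [hgZ, ← mul_div_assoc]
    exact hH.div_const _
  have key := hemp (Fin n) g (fun x => by rw [hg]; exact Real.exp_pos _) hgc (fun x y s hs0 hs1 => by
      rw [hg]
      simp only
      rw [← Real.exp_mul, ← Real.exp_mul, ← Real.exp_add]
      refine Real.exp_le_exp.2 ?_
      rw [pt_comb]
      have h5 := hU.conv.2 (mem_univ (pt n t x)) (mem_univ (pt n t y)) (by linarith : 0 ≤ 1 - s) hs0.le
        (by ring)
      simp only [smul_eq_mul] at h5
      nlinarith) (by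
      refine hgI (fun x => (1 + ‖x‖) ^ 2) (hcmp (by fun_prop) (c := 1) zero_le_one fun z => ?_).1
      rw [abs_of_nonneg (by positivity), one_mul]
      exact pow_le_pow_right₀ (one_le_pw z) (by norm_num)) (by
      have := hgi (fun _ => 1)
      simp only [one_mul] at this
      rw [this, ← hm, div_self hm0.ne']) D₁ (fun f hf hf1 => by
      obtain ⟨F, hFd⟩ : ∃ F : Eu (Fin n) → ℝ, F = fun z => f z - f 0 := ⟨_, rfl⟩
      have hFC : ContDiff ℝ 1 F := by rw [hFd]; exact hf.sub contDiff_const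
      have hFb : ∀ z, |F z| ≤ 1 * (1 + ‖z‖) := fun z => by rw [hFd]; exact lip_bd hf hf1 z
      have hc := abs_le.1 (hvv hFC.continuous zero_le_one hFb)
      have hFi := (hcmp hFC.continuous (c := 1) zero_le_one fun z => (hFb z).trans
        (mul_le_mul_of_nonneg_left (le_self_pow₀ (one_le_pw z) (by norm_num)) zero_le_one)).1
      have hF2i := (hcmp (F := fun z => F z ^ 2) (hFC.continuous.pow 2) (c := 1) zero_le_one fun z => by
        rw [abs_pow, one_mul]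
        refine (pow_le_pow_left₀ (abs_nonneg _) (hFb z) 2).trans ?_
        rw [one_mul]
        exact pow_le_pow_right₀ (one_le_pw z) (by norm_num)).1
      have hV : VV (sl D t) F ≤ k * (σ + K * η) := by
        refine (hPI F hFC).trans ?_
        have h5 : EV (sl D t) (fun x => ‖fderiv ℝ F x‖ ^ 2) ≤ 1 := by
          unfold EV
          have hfin : volume (sl D t) < ⊤ := hcb.cpt.measure_lt_top
          have h6 := norm_setIntegral_le_of_norm_le_const (μ := volume)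
            (f := fun x => ‖fderiv ℝ F x‖ ^ 2) (C := 1) hfin (fun z _ => by
              have h7 : fderiv ℝ F z = fderiv ℝ f z := by
                rw [hFd]
                exact fderiv_sub_const _
              rw [h7, Real.norm_eq_abs, abs_pow, abs_norm]
              exact pow_le_one₀ (norm_nonneg _) (hf1 z))
          rw [one_mul, Real.norm_eq_abs] at h6
          exact div_le_one_of_le₀ ((le_abs_self _).trans h6) ENNReal.toReal_nonneg
        have h8 : 0 ≤ k * (σ + K * η) := by positivity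
        nlinarith
      have e1 : ∫ x, f x * g x = (∫ x, F x * Z x) / m + f 0 := by
        have h5 : ∀ x, f x * g x = F x * g x + f 0 * g x := fun x => by rw [hFd]; ring
        have h6 : ∫ x, f 0 * g x = f 0 := by
          rw [hgi (fun _ => f 0), integral_const_mul, ← hm, mul_div_assoc, div_self hm0.ne', mul_one]
        simp_rw [h5]
        rw [integral_add (hgI F hFi) (hgI (fun _ => f 0) (hZi.const_mul _)), h6, hgi]
      have e2 : ∫ x, f x ^ 2 * g x = (∫ x, F x ^ 2 * Z x) / m + 2 * f 0 * ((∫ x, F x * Z x) / m) + f 0 ^ 2 := by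
        have h5 : ∀ x, f x ^ 2 * g x = (F x ^ 2 * g x + 2 * f 0 * (F x * g x)) + f 0 ^ 2 * g x := fun x => by
          rw [hFd]; ring
        have h6 : ∫ x, f 0 ^ 2 * g x = f 0 ^ 2 := by
          rw [hgi (fun _ => f 0 ^ 2), integral_const_mul, ← hm, mul_div_assoc, div_self hm0.ne', mul_one]
        have i1 : Integrable (fun x => F x ^ 2 * g x) := hgI (fun x => F x ^ 2) hF2i
        have i2 : Integrable (fun x => 2 * f 0 * (F x * g x)) := (hgI F hFi).const_mul _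
        have i3 : Integrable (fun x => f 0 ^ 2 * g x) := hgI (fun _ => f 0 ^ 2) (hZi.const_mul _)
        have i12 : Integrable (fun x => F x ^ 2 * g x + 2 * f 0 * (F x * g x)) := i1.add i2
        simp_rw [h5]
        rw [integral_add i12 i3, integral_add i1 i2, h6, integral_const_mul, hgi F, hgi (fun x => F x ^ 2)]
      rw [e1, e2, hD₁]
      have := hc.2
      rw [one_pow, mul_one] at this
      nlinarith) (fun x => φ (lp n x + 0)) (comp_smooth hφ 0) (by
      have h5 : (fun x : Eu (Fin n) => φ (lp n x + 0)) = φ ∘ (lp n).toHomeomorph := by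
        funext x
        simp
      rw [h5]
      exact hφs.comp_homeomorph _)
  simp_rw [norm_fderiv_sq hφ] at key
  rw [hgi (fun x => φ (lp n x + 0) ^ 2), hgi (fun x => φ (lp n x + 0)),
    hgi (fun x => ∑ i, (pd (sv i) φ (lp n x + 0)) ^ 2)] at key
  simp only [add_zero] at key
  rw [hdens, hlp (fun z => φ z ^ 2), hlp φ, hlp (fun z => ∑ i, (pd (sv i) φ z) ^ 2)]
  obtain ⟨a1, ha1⟩ : ∃ a1, a1 = ∫ x, φ (lp n x) ^ 2 * Z x := ⟨_, rfl⟩
  obtain ⟨a2, ha2⟩ : ∃ a2, a2 = ∫ x, φ (lp n x) * Z x := ⟨_, rfl⟩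
  obtain ⟨a3, ha3⟩ : ∃ a3, a3 = ∫ x, (∑ i, (pd (sv i) φ (lp n x)) ^ 2) * Z x := ⟨_, rfl⟩
  have ha30 : 0 ≤ a3 := by
    rw [ha3]
    exact integral_nonneg fun x => mul_nonneg (Finset.sum_nonneg fun _ _ => sq_nonneg _) (hZpos x).le
  rw [← ha1, ← ha2, ← ha3] at key ⊢
  have k2 : m * a1 - a2 ^ 2 ≤ C * D₁ * m * a3 := by
    have h5 := mul_le_mul_of_nonneg_left key (by positivity : 0 ≤ m ^ 2)
    have h6 : m ^ 2 * (a1 / m - (a2 / m) ^ 2) = m * a1 - a2 ^ 2 := by
      field_simp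
    have h7 : m ^ 2 * (C * D₁ * (a3 / m)) = C * D₁ * m * a3 := by
      field_simp
    rw [h6, h7] at h5
    exact h5
  refine k2.trans ?_
  have k3 : C * D₁ ≤ max C 1 * (k * σ + ε) :=
    mul_le_mul (le_max_left _ _) hD₁le hD₁0 (zero_le_one.trans (le_max_right _ _))
  have k4 : 0 ≤ m * a3 := by positivity
  calc C * D₁ * m * a3 = C * D₁ * (m * a3) := by ring
    _ ≤ max C 1 * (k * σ + ε) * (m * a3) := mul_le_mul_of_nonneg_right k3 k4
    _ = _ := by ring

end Pool.Agent.Q193.EM
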