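import Pool.Agent.Q86.EM.Stm4

/-!
# A Cheeger inequality gives exponential concentration of Lipschitz functions
-/

set_option autoImplicit false
set_option linter.unusedSectionVars false

namespace Pool.Agent.Q193.EM.Chl

open MeasureTheory Set Filter Topology
open scoped ENNReal InnerProductSpace ContDiff
open Pool.Agent.W695.KH (EV VV)
open Pool.Agent.Q188.SB (un bdr)
open Pool.Agent.Q86.EM

/-- the supremum argument for monotone functions -/
theorem sup_arg {G : ℝ → ℝ} (hG : Antitone G) {c m K : ℝ} (hm : G m ≤ K) (hK : 0 ≤ K)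
    (step : ∀ b, m ≤ b → 0 < G b → ∃ δ : ℝ, 0 < δ ∧ ∀ ε, 0 < ε → ε < δ →
      G (b + ε) ≤ G b * Real.exp (-(c * ε))) {r : ℝ} (hr : 0 ≤ r) :
    G (m + r) ≤ K * Real.exp (-(c * r)) := by
  set s : Set ℝ := {x | ∀ y, m ≤ y → y ≤ x → G y ≤ K * Real.exp (-(c * (y - m)))} with hs
  have hmain : Icc m (m + r) ⊆ s := by
    refine IsClosed.Icc_subset_of_forall_exists_gt ?_ ?_ ?_
    · -- closed
      refine isClosed_of_closure_subset fun x hx => ?_
      have hxI : x ∈ Icc m (m + r) := by
        have := closure_mono (inter_subset_right : s ∩ Icc m (m + r) ⊆ Icc m (m + r)) hx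
        rwa [isClosed_Icc.closure_eq] at this
      have hlt : ∀ y, m ≤ y → y < x → G y ≤ K * Real.exp (-(c * (y - m))) := by
        intro y hy hyx
        obtain ⟨z, hz1, hz2⟩ := mem_closure_iff.1 hx (Ioi y) isOpen_Ioi hyx
        exact hz2.1 y hy (le_of_lt hz1)
      refine ⟨fun y hy hyx => ?_, hxI⟩
      rcases hyx.lt_or_eq with h | h
      · exact hlt y hy h
      rcases hxI.1.lt_or_eq with h' | h'
      · -- limit from the left
        have hc : Tendsto (fun z : ℝ => K * Real.exp (-(c * (z - m)))) (𝓝[<] x)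
            (𝓝 (K * Real.exp (-(c * (x - m))))) := by
          have : Continuous fun z : ℝ => K * Real.exp (-(c * (z - m))) := by fun_prop
          exact (this.tendsto x).mono_left nhdsWithin_le_nhds
        rw [h]
        refine ge_of_tendsto hc ?_
        filter_upwards [self_mem_nhdsWithin, mem_nhdsWithin_of_mem_nhds (lt_mem_nhds h')] with z hz hz'
        have hz'' : z < x := hz
        exact (hG hz''.le).trans (hlt z (le_of_lt hz') hz'')
      · have e : y = m := by rw [h, ← h']
        rw [e]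
        simpa using hm
    · intro y hy1 hy2
      have e : y = m := le_antisymm hy2 hy1
      rw [e]
      simpa using hm
    · intro x hx y hy
      have hy' : x < y := hy
      rcases le_or_gt (G x) 0 with h0 | h0
      · refine ⟨y, fun w hw1 _ => ?_, hy', le_rfl⟩
        rcases le_or_gt w x with h | h
        · exact hx.1 w hw1 h
        · exact ((hG h.le).trans h0).trans (by positivity)
      · obtain ⟨δ, hδ, hst⟩ := step x hx.2.1 h0
        refine ⟨min y (x + δ / 2), fun w hw1 hw2 => ?_, lt_min hy' (by linarith), min_le_left _ _⟩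
        rcases le_or_gt w x with h | h
        · exact hx.1 w hw1 h
        · have h1 := hst (w - x) (by linarith) (by
            have := hw2.trans (min_le_right _ _)
            linarith)
          rw [add_sub_cancel] at h1
          have h2 := hx.1 x hx.2.1 le_rfl
          calc G w ≤ G x * Real.exp (-(c * (w - x))) := h1
            _ ≤ K * Real.exp (-(c * (x - m))) * Real.exp (-(c * (w - x))) :=
                mul_le_mul_of_nonneg_right h2 (Real.exp_pos _).le
            _ = _ := by
                rw [mul_assoc, ← Real.exp_add]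
                congr 2
                ring
  have h1 := hmain ⟨by linarith, le_rfl⟩ (m + r) (by linarith) le_rfl
  rwa [add_sub_cancel_left] at h1

variable {κ : Type} [Fintype κ] {μ : Measure (Eu κ)} [IsProbabilityMeasure μ] {f : Eu κ → ℝ}

/-- `μ {f > b}` -/
noncomputable def G (μ : Measure (Eu κ)) (f : Eu κ → ℝ) (b : ℝ) : ℝ := (μ {x | b < f x}).toReal

theorem G_nonneg (b : ℝ) : 0 ≤ G μ f b := ENNReal.toReal_nonneg

theorem G_anti : Antitone (G μ f) := fun a b hab =>
  ENNReal.toReal_mono (measure_ne_top _ _) (measure_mono fun _ hx => lt_of_le_of_lt hab hx)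

theorem G_eq (hf : Measurable f) (b : ℝ) : G μ f b = 1 - (μ {x | f x ≤ b}).toReal := by
  have h1 : {x : Eu κ | b < f x} = {x | f x ≤ b}ᶜ := by
    ext x; simp
  have hm : MeasurableSet {x : Eu κ | f x ≤ b} := measurableSet_le hf measurable_const
  unfold G
  rw [h1, prob_compl_eq_one_sub hm, ENNReal.toReal_sub_of_le prob_le_one ENNReal.one_ne_top,
    ENNReal.toReal_one]

theorem thick_sub (hf : LipschitzWith 1 f) (b ε : ℝ) :
    Metric.thickening ε {x : Eu κ | f x ≤ b} ⊆ {x | f x ≤ b + ε} := by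
  intro x hx
  rw [Metric.mem_thickening_iff] at hx
  obtain ⟨y, hy, hxy⟩ := hx
  have hy' : f y ≤ b := hy
  have h1 := hf.dist_le_mul x y
  rw [NNReal.coe_one, one_mul, Real.dist_eq] at h1
  have h2 := le_abs_self (f x - f y)
  show f x ≤ b + ε
  linarith

/-- exponential decay of the tail -/
theorem decay (hf : LipschitzWith 1 f) {τ : ℝ} (hτ : 0 < τ)
    (H : ∀ b : ℝ, ENNReal.ofReal τ * min (μ {x | f x ≤ b}) (1 - μ {x | f x ≤ b}) ≤
      bdr μ {x | f x ≤ b}) {m : ℝ} (hm : G μ f m ≤ 1 / 2) {r : ℝ} (hr : 0 ≤ r) :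
    G μ f (m + r) ≤ 1 / 2 * Real.exp (-(τ / 2 * r)) := by
  have hfm : Measurable f := hf.continuous.measurable
  refine sup_arg G_anti hm (by norm_num) (fun x hx hGx => ?_) hr
  have hx2 : G μ f x ≤ 1 / 2 := (G_anti hx).trans hm
  have hH := H x
  have e1 : μ {y | f y ≤ x} = ENNReal.ofReal (1 - G μ f x) := by
    rw [G_eq hfm, sub_sub_cancel, ENNReal.ofReal_toReal (measure_ne_top _ _)]
  have e2 : (1 : ℝ≥0∞) - μ {y | f y ≤ x} = ENNReal.ofReal (G μ f x) := by
    rw [e1, ← ENNReal.ofReal_one, ← ENNReal.ofReal_sub _ (by linarith)]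
    congr 1
    ring
  rw [e2, e1, min_eq_right (ENNReal.ofReal_le_ofReal (by linarith)),
    ← ENNReal.ofReal_mul hτ.le] at hH
  have h1 : ENNReal.ofReal (τ / 2 * G μ f x) < bdr μ {y | f y ≤ x} := by
    refine lt_of_lt_of_le ?_ hH
    rw [ENNReal.ofReal_lt_ofReal_iff_of_nonneg (by positivity)]
    nlinarith [mul_pos hτ hGx]
  have h2 := eventually_lt_of_lt_liminf h1
  rw [eventually_nhdsWithin_iff, Metric.eventually_nhds_iff] at h2
  obtain ⟨δ, hδ, h3⟩ := h2
  refine ⟨δ, hδ, fun ε hε hεδ => ?_⟩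
  have hz := h3 (y := ε) (by rw [Real.dist_eq, sub_zero, abs_of_pos hε]; exact hεδ) hε
  have h4 : μ (Metric.thickening ε {y | f y ≤ x}) ≤ μ {y | f y ≤ x + ε} :=
    measure_mono (thick_sub hf x ε)
  have h5 : ENNReal.ofReal (τ / 2 * G μ f x) <
      ENNReal.ofReal ((G μ f x - G μ f (x + ε)) / ε) := by
    refine lt_of_lt_of_le hz ?_
    rw [ENNReal.ofReal_div_of_pos hε]
    refine ENNReal.div_le_div_right ?_ _
    have e3 : μ {y | f y ≤ x + ε} = ENNReal.ofReal (1 - G μ f (x + ε)) := by
      rw [G_eq hfm, sub_sub_cancel, ENNReal.ofReal_toReal (measure_ne_top _ _)]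
    refine (tsub_le_tsub_right h4 _).trans ?_
    rw [e3, e1, ← ENNReal.ofReal_sub _ (by linarith)]
    exact ENNReal.ofReal_le_ofReal (by linarith)
  rw [ENNReal.ofReal_lt_ofReal_iff_of_nonneg (by positivity), lt_div_iff₀ hε] at h5
  have h6 : 1 - τ / 2 * ε ≤ Real.exp (-(τ / 2 * ε)) := by
    have := Real.add_one_le_exp (-(τ / 2 * ε))
    linarith
  have h7 := mul_le_mul_of_nonneg_left h6 hGx.le
  linarith

/-- an approximate median -/
theorem exists_med (hf : Measurable f) {R : ℝ} (hb : ∀ᵐ x ∂μ, |f x| ≤ R) {δ : ℝ} (hδ : 0 < δ) :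
    ∃ m, G μ f (m + δ) ≤ 1 / 2 ∧ G μ (fun x => -f x) (-m + δ) ≤ 1 / 2 := by
  set S : Set ℝ := {b | G μ f b ≤ 1 / 2} with hS
  have hne : S.Nonempty := by
    refine ⟨R, ?_⟩
    have h1 : μ {x | R < f x} = 0 := by
      have h2 : ∀ᵐ x ∂μ, ¬ (R < f x) := by
        filter_upwards [hb] with x hx
        have := (abs_le.1 hx).2
        linarith
      rw [ae_iff] at h2
      simpa using h2
    show G μ f R ≤ 1 / 2
    unfold G
    rw [h1, ENNReal.toReal_zero]
    norm_num
  have hbd : BddBelow S := by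
    refine ⟨-R, fun b hbS => ?_⟩
    by_contra hlt
    push Not at hlt
    have h1 : μ {x | f x ≤ b} = 0 := by
      have h2 : ∀ᵐ x ∂μ, ¬ (f x ≤ b) := by
        filter_upwards [hb] with x hx
        have := (abs_le.1 hx).1
        linarith
      rw [ae_iff] at h2
      simpa using h2
    have h3 : G μ f b ≤ 1 / 2 := hbS
    rw [G_eq hf, h1, ENNReal.toReal_zero] at h3
    norm_num at h3
  refine ⟨sInf S, ?_, ?_⟩
  · obtain ⟨b, hb1, hb2⟩ := exists_lt_of_csInf_lt hne (show sInf S < sInf S + δ by linarith)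
    exact (G_anti hb2.le).trans hb1
  · have h1 : 1 / 2 < G μ f (sInf S - δ) := by
      by_contra hcon
      push Not at hcon
      have := csInf_le hbd (show sInf S - δ ∈ S from hcon)
      linarith
    rw [G_eq hf] at h1
    have h2 : G μ (fun x => -f x) (-sInf S + δ) ≤ (μ {x | f x ≤ sInf S - δ}).toReal := by
      refine ENNReal.toReal_mono (measure_ne_top _ _) (measure_mono fun x hx => ?_)
      have hx' : -sInf S + δ < -f x := hx
      show f x ≤ sInf S - δ
      linarith
    linarith

/-- second moment -/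
theorem second (hf : LipschitzWith 1 f) {τ : ℝ} (hτ : 0 < τ)
    (H : ∀ b : ℝ, ENNReal.ofReal τ * min (μ {x | f x ≤ b}) (1 - μ {x | f x ≤ b}) ≤
      bdr μ {x | f x ≤ b})
    (H' : ∀ b : ℝ, ENNReal.ofReal τ * min (μ {x | -f x ≤ b}) (1 - μ {x | -f x ≤ b}) ≤
      bdr μ {x | -f x ≤ b}) {m δ : ℝ} (hδ : 0 < δ) (hm1 : G μ f (m + δ) ≤ 1 / 2)
    (hm2 : G μ (fun x => -f x) (-m + δ) ≤ 1 / 2) :
    ∫⁻ x, ENNReal.ofReal ((f x - m) ^ 2) ∂μ ≤ ENNReal.ofReal (2 * δ ^ 2 + 16 / τ ^ 2) := by
  have hfm : Measurable f := hf.continuous.measurable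
  have hf' : LipschitzWith 1 (fun x => -f x) := hf.neg
  have h1 : ∀ r : ℝ, 0 < r → μ {x | r < max (|f x - m| - δ) 0} ≤
      ENNReal.ofReal (Real.exp (-(τ / 2 * r))) := by
    intro r hr
    have e1 : {x : Eu κ | r < max (|f x - m| - δ) 0} ⊆
        {x | m + δ + r < f x} ∪ {x | -m + δ + r < -f x} := by
      intro x hx
      have hx' : r < max (|f x - m| - δ) 0 := hx
      have hx2 : r < |f x - m| - δ := by
        rcases lt_max_iff.1 hx' with h | h
        · exact h
        · linarith
      rcases lt_abs.1 (show r + δ < |f x - m| by linarith) with h | h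
      · left
        show m + δ + r < f x
        linarith
      · right
        show -m + δ + r < -f x
        linarith
    have d1 := decay hf hτ H hm1 hr.le
    have d2 := decay hf' hτ H' hm2 hr.le
    calc μ {x | r < max (|f x - m| - δ) 0} ≤ μ {x | m + δ + r < f x} + μ {x | -m + δ + r < -f x} :=
          (measure_mono e1).trans (measure_union_le _ _)
      _ = ENNReal.ofReal (G μ f (m + δ + r)) + ENNReal.ofReal (G μ (fun x => -f x) (-m + δ + r)) := by
          unfold G
          rw [ENNReal.ofReal_toReal (measure_ne_top _ _), ENNReal.ofReal_toReal (measure_ne_top _ _)]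
      _ ≤ _ := by
          rw [← ENNReal.ofReal_add (G_nonneg _) (G_nonneg _)]
          exact ENNReal.ofReal_le_ofReal (by linarith)
  have hgm : Measurable fun x => max (|f x - m| - δ) 0 := by fun_prop
  have h2 := lintegral_rpow_eq_lintegral_meas_lt_mul μ (f := fun x => max (|f x - m| - δ) 0)
    (Eventually.of_forall fun x => le_max_right _ _) hgm.aemeasurable (p := 2) (by norm_num)
  have h3 : ∀ x : Eu κ, (max (|f x - m| - δ) 0) ^ (2:ℝ) = (max (|f x - m| - δ) 0) ^ 2 := by
    intro x
    rw [show (2:ℝ) = ((2:ℕ):ℝ) by norm_num, Real.rpow_natCast]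
  simp only [h3] at h2
  have h4 : ∫⁻ x, ENNReal.ofReal ((max (|f x - m| - δ) 0) ^ 2) ∂μ ≤ ENNReal.ofReal (8 / τ ^ 2) := by
    rw [h2]
    calc ENNReal.ofReal 2 * ∫⁻ t in Ioi (0:ℝ), μ {a | t < max (|f a - m| - δ) 0} *
            ENNReal.ofReal (t ^ ((2:ℝ) - 1))
        ≤ ENNReal.ofReal 2 * ∫⁻ r in Ioi (0:ℝ), ENNReal.ofReal (Real.exp (-(τ / 2 * r))) *
            ENNReal.ofReal (r ^ ((2:ℝ) - 1)) := by
          refine mul_le_mul' le_rfl (setLIntegral_mono' measurableSet_Ioi fun r hr => ?_)
          exact mul_le_mul' (h1 r hr) le_rfl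
      _ = ENNReal.ofReal (8 / τ ^ 2) := by
          rw [Pool.Agent.Q73.KL.exp_mom hτ, ← ENNReal.ofReal_mul (by norm_num)]
          congr 1
          ring
  calc ∫⁻ x, ENNReal.ofReal ((f x - m) ^ 2) ∂μ
      ≤ ∫⁻ x, (ENNReal.ofReal (2 * δ ^ 2) +
          ENNReal.ofReal 2 * ENNReal.ofReal ((max (|f x - m| - δ) 0) ^ 2)) ∂μ := by
        refine lintegral_mono fun x => ?_
        rw [← ENNReal.ofReal_mul (by norm_num), ← ENNReal.ofReal_add (by positivity) (by positivity)]
        refine ENNReal.ofReal_le_ofReal ?_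
        have a1 : |f x - m| ≤ max (|f x - m| - δ) 0 + δ := by
          have := le_max_left (|f x - m| - δ) 0
          linarith
        have a2 : 0 ≤ max (|f x - m| - δ) 0 := le_max_right _ _
        have a3 : (f x - m) ^ 2 = |f x - m| ^ 2 := (sq_abs _).symm
        rw [a3]
        have a4 : |f x - m| ^ 2 ≤ (max (|f x - m| - δ) 0 + δ) ^ 2 :=
          pow_le_pow_left₀ (abs_nonneg _) a1 2
        nlinarith [sq_nonneg (max (|f x - m| - δ) 0 - δ)]
    _ = ENNReal.ofReal (2 * δ ^ 2) +
          ENNReal.ofReal 2 * ∫⁻ x, ENNReal.ofReal ((max (|f x - m| - δ) 0) ^ 2) ∂μ := by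
        rw [lintegral_add_left measurable_const,
          lintegral_const_mul _ (hgm.pow_const 2).ennreal_ofReal, lintegral_const, measure_univ,
          mul_one]
    _ ≤ ENNReal.ofReal (2 * δ ^ 2) + ENNReal.ofReal 2 * ENNReal.ofReal (8 / τ ^ 2) := by gcongr
    _ = _ := by
        rw [← ENNReal.ofReal_mul (by norm_num), ← ENNReal.ofReal_add (by positivity) (by positivity)]
        congr 1
        ring

/-- **Cheeger gives variance of Lipschitz functions** -/
theorem chl : S_CHL := by
  refine ⟨18, by norm_num, ?_⟩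
  intro κ _ D hD τ hτ H f hf hf1
  have hpos : 0 < volume D := lt_of_lt_of_le (isOpen_interior.measure_pos volume hD.int)
    (measure_mono interior_subset)
  have hp := Pool.Agent.Q188.SB.un_prob D hD.cpt hpos
  have hl : LipschitzWith 1 f := by
    refine lipschitzWith_of_nnnorm_fderiv_le (𝕜 := ℝ) (hf.differentiable (by norm_num)) fun x => ?_
    exact_mod_cast hf1 x
  obtain ⟨R, hR⟩ := hD.cpt.exists_bound_of_continuousOn hf.continuous.continuousOn
  have hb : ∀ᵐ x ∂(un D), |f x| ≤ R := by
    have h1 : ∀ᵐ x ∂(un D), x ∈ D := by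
      unfold un
      refine Measure.ae_smul_measure ?_ _
      exact ae_restrict_mem hD.cpt.measurableSet
    filter_upwards [h1] with x hx
    exact hR x hx
  have hτ1 : 0 < 1 / τ := by positivity
  obtain ⟨m, hm1, hm2⟩ := exists_med hf.continuous.measurable hb hτ1
  have h2 := second hl hτ
    (fun b => H _ (measurableSet_le hf.continuous.measurable measurable_const))
    (fun b => H _ (measurableSet_le hf.continuous.measurable.neg measurable_const)) hτ1 hm1 hm2
  have e : 2 * (1 / τ) ^ 2 + 16 / τ ^ 2 = 18 / τ ^ 2 := by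
    field_simp
    norm_num
  rw [e] at h2
  have h3 := (Pool.Agent.Q73.KL.var_of_lint hf.continuous.measurable (by positivity) h2).2
  rw [Pool.Agent.Q188.SB.int_un, Pool.Agent.Q188.SB.int_un] at h3
  exact h3

end Pool.Agent.Q193.EM.Chl
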