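import Pool.Agent.Q86.EM.Stm4
import Pool.Agent.H212R2.KLS.T1

/-!
# Variances control halfspaces
-/

set_option autoImplicit false
set_option linter.unusedSectionVars false

namespace Pool.Agent.Q193.EM.Hlf

open MeasureTheory Set Filter Topology
open scoped ENNReal InnerProductSpace ContDiff
open Pool.Agent.W695.KH (EV VV)
open Pool.Agent.Q188.SB (un bdr)
open Pool.Agent.Q86.EM

/-- log-concave distribution functions -/
structure LCD (Φ : ℝ → ℝ) (a L : ℝ) : Prop where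
  nn : ∀ x, 0 ≤ Φ x
  mono : Monotone Φ
  lc : ∀ x y t : ℝ, 0 < t → t < 1 → Φ x ^ (1 - t) * Φ y ^ t ≤ Φ ((1 - t) * x + t * y)
  L0 : 0 < L
  lo : Φ a ≤ 1 / 4
  hi : 3 / 4 ≤ Φ (a + L)

theorem LCD.grow {Φ : ℝ → ℝ} {a L : ℝ} (h : LCD Φ a L) {r : ℝ} (hr : Φ r ≤ 1 / 2) :
    3 / 2 * Φ r ≤ Φ (r + L) := by
  have hL := h.L0
  rcases le_or_gt a r with har | har
  · have h1 := h.mono (show a + L ≤ r + L by linarith)
    have h2 := h.hi
    linarith
  · set t := (a - r) / (a + L - r) with ht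
    have hd : 0 < a + L - r := by linarith
    have ht0 : 0 < t := div_pos (by linarith) hd
    have ht1 : t < 1 := by
      rw [ht, div_lt_one hd]
      linarith
    have htd : t * (a + L - r) = a - r := by
      rw [ht]
      field_simp
    have h1 := h.lc r (a + L) t ht0 ht1
    have h2 := h.lc r (a + L) (1 - t) (by linarith) (by linarith)
    have e1 : (1 - t) * r + t * (a + L) = a := by
      linarith
    have e2 : (1 - (1 - t)) * r + (1 - t) * (a + L) = r + L := by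
      linarith
    rw [e1] at h1
    rw [e2, sub_sub_cancel] at h2
    have n1 := h.nn r
    have n2 := h.nn (a + L)
    have n3 := h.nn (r + L)
    have h3 : Φ r * Φ (a + L) ≤ Φ a * Φ (r + L) := by
      have h4 := mul_le_mul h1 h2 (mul_nonneg (Real.rpow_nonneg n1 _) (Real.rpow_nonneg n2 _)) (h.nn a)
      have e3 : Φ r ^ (1 - t) * Φ (a + L) ^ t * (Φ r ^ t * Φ (a + L) ^ (1 - t)) =
          (Φ r ^ (1 - t) * Φ r ^ t) * (Φ (a + L) ^ t * Φ (a + L) ^ (1 - t)) := by ring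
      rw [e3, ← Real.rpow_add_of_nonneg n1 (by linarith) ht0.le,
        ← Real.rpow_add_of_nonneg n2 ht0.le (by linarith), sub_add_cancel, add_sub_cancel,
        Real.rpow_one, Real.rpow_one] at h4
      exact h4
    have h5 := mul_le_mul_of_nonneg_left h.hi n1
    have h6 := mul_le_mul_of_nonneg_right h.lo n3
    linarith

theorem LCD.up {Φ : ℝ → ℝ} {a L : ℝ} (h : LCD Φ a L) {r ε : ℝ} (hr : Φ r ≤ 1 / 2) (hε : 0 < ε)
    (hεL : ε < L) : Φ r * (1 + Real.log (3 / 2) / L * ε) ≤ Φ (r + ε) := by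
  have hL := h.L0
  have n1 := h.nn r
  set t := ε / L with ht
  have ht0 : 0 < t := div_pos hε hL
  have ht1 : t < 1 := by rwa [ht, div_lt_one hL]
  have h1 := h.lc r (r + L) t ht0 ht1
  have e1 : (1 - t) * r + t * (r + L) = r + ε := by
    have : t * L = ε := by
      rw [ht]
      field_simp
    linarith
  rw [e1] at h1
  have h2 : (3 / 2 * Φ r) ^ t ≤ Φ (r + L) ^ t := Real.rpow_le_rpow (by positivity) (h.grow hr) ht0.le
  have h3 : Φ r ^ (1 - t) * (3 / 2 * Φ r) ^ t = Φ r * (3 / 2 : ℝ) ^ t := by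
    rw [Real.mul_rpow (by norm_num) n1, mul_left_comm,
      ← Real.rpow_add_of_nonneg n1 (by linarith) ht0.le, sub_add_cancel, Real.rpow_one]
    ring
  have h4 : 1 + Real.log (3 / 2) / L * ε ≤ (3 / 2 : ℝ) ^ t := by
    rw [Real.rpow_def_of_pos (by norm_num)]
    have := Real.add_one_le_exp (Real.log (3 / 2) * t)
    have e : Real.log (3 / 2) / L * ε = Real.log (3 / 2) * t := by
      rw [ht]
      ring
    rw [e]
    linarith
  calc Φ r * (1 + Real.log (3 / 2) / L * ε) ≤ Φ r * (3 / 2 : ℝ) ^ t := mul_le_mul_of_nonneg_left h4 n1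
    _ = Φ r ^ (1 - t) * (3 / 2 * Φ r) ^ t := h3.symm
    _ ≤ Φ r ^ (1 - t) * Φ (r + L) ^ t := mul_le_mul_of_nonneg_left h2 (Real.rpow_nonneg n1 _)
    _ ≤ _ := h1

theorem LCD.down {Φ : ℝ → ℝ} {a L : ℝ} (h : LCD Φ a L) {r ε : ℝ} (hr : Φ r ≤ 1 / 2) (hε : 0 < ε)
    (hεL : ε < L) (hs : Real.log (3 / 2) / L * ε ≤ 1) :
    Φ r * (Real.log (3 / 2) / L / 2) * ε ≤ Φ r - Φ (r - ε) := by
  have h1 := h.up (r := r - ε) ((h.mono (by linarith)).trans hr) hε hεL
  rw [sub_add_cancel] at h1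
  have n1 := h.nn r
  have n2 := h.nn (r - ε)
  have hlog : 0 < Real.log (3 / 2) := Real.log_pos (by norm_num)
  have hL := h.L0
  set c := Real.log (3 / 2) / L * ε with hc
  have hc0 : 0 < c := by positivity
  have e : Φ r * (Real.log (3 / 2) / L / 2) * ε = Φ r * (c / 2) := by
    rw [hc]
    ring
  rw [e]
  -- Φ (r - ε) (1 + c) ≤ Φ r
  have h2 : Φ (r - ε) ≤ Φ r * (1 - c / 2) := by
    have h3 : Φ (r - ε) * (1 + c) ≤ Φ r * (1 - c / 2) * (1 + c) := by
      refine h1.trans ?_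
      have : 1 ≤ (1 - c / 2) * (1 + c) := by nlinarith
      nlinarith
    exact le_of_mul_le_mul_right h3 (by linarith)
  linarith

variable {κ : Type} [Fintype κ] {D : Set (Eu κ)}

theorem un_real (hD : IsCompact D) {S : Set (Eu κ)} (hS : MeasurableSet S) :
    (un D S).toReal = (volume D).toReal⁻¹ * (volume (S ∩ D)).toReal := by
  unfold un
  rw [Measure.smul_apply, smul_eq_mul, Measure.restrict_apply hS, ENNReal.toReal_mul,
    ENNReal.toReal_inv]

/-- log-concavity of the measure of a convex family of sets -/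
theorem lc_un (hD : CB D) {S T U : Set (Eu κ)} (hS : MeasurableSet S) (hT : MeasurableSet T)
    (hU : MeasurableSet U) {t : ℝ} (ht0 : 0 < t) (ht1 : t < 1)
    (h : ∀ x ∈ S, ∀ y ∈ T, (1 - t) • x + t • y ∈ U) :
    (un D S).toReal ^ (1 - t) * (un D T).toReal ^ t ≤ (un D U).toReal := by
  have hDm := hD.cpt.measurableSet
  have hvf : volume D ≠ ⊤ := hD.cpt.measure_lt_top.ne
  have hfin : ∀ A : Set (Eu κ), volume (A ∩ D) ≠ ⊤ := fun A =>
    ne_top_of_le_ne_top hvf (measure_mono inter_subset_right)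
  have t1 : 0 < 1 - t := by linarith
  have key := Pool.Agent.H212R2.KLS.PL (volume : Measure (Eu κ)) t ht0 ht1
    ((S ∩ D).indicator fun _ => 1) ((T ∩ D).indicator fun _ => 1) ((U ∩ D).indicator fun _ => 1)
    (measurable_const.indicator (hS.inter hDm)) (measurable_const.indicator (hT.inter hDm))
    (measurable_const.indicator (hU.inter hDm)) (fun x y => by
      by_cases hx : x ∈ S ∩ D
      · by_cases hy : y ∈ T ∩ D
        · rw [indicator_of_mem hx, indicator_of_mem hy, indicator_of_mem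
            (show (1 - t) • x + t • y ∈ U ∩ D from ⟨h x hx.1 y hy.1, hD.cvx hx.2 hy.2 t1.le ht0.le
              (by ring)⟩), ENNReal.one_rpow, ENNReal.one_rpow, mul_one]
        · rw [indicator_of_notMem hy, ENNReal.zero_rpow_of_pos ht0, mul_zero]
          exact bot_le
      · rw [indicator_of_notMem hx, ENNReal.zero_rpow_of_pos t1, zero_mul]
        exact bot_le)
  rw [lintegral_indicator_const (hS.inter hDm), lintegral_indicator_const (hT.inter hDm),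
    lintegral_indicator_const (hU.inter hDm), one_mul, one_mul, one_mul] at key
  have key2 := ENNReal.toReal_mono (hfin U) key
  rw [ENNReal.toReal_mul, ← ENNReal.toReal_rpow, ← ENNReal.toReal_rpow] at key2
  rw [un_real hD.cpt hS, un_real hD.cpt hT, un_real hD.cpt hU,
    Real.mul_rpow (by positivity) ENNReal.toReal_nonneg,
    Real.mul_rpow (by positivity) ENNReal.toReal_nonneg]
  set v := (volume D).toReal⁻¹ with hv
  have hv0 : 0 ≤ v := by positivity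
  calc v ^ (1 - t) * (volume (S ∩ D)).toReal ^ (1 - t) * (v ^ t * (volume (T ∩ D)).toReal ^ t)
      = (v ^ (1 - t) * v ^ t) * ((volume (S ∩ D)).toReal ^ (1 - t) * (volume (T ∩ D)).toReal ^ t) := by
        ring
    _ = v * ((volume (S ∩ D)).toReal ^ (1 - t) * (volume (T ∩ D)).toReal ^ t) := by
        rw [← Real.rpow_add_of_nonneg hv0 t1.le ht0.le, sub_add_cancel, Real.rpow_one]
    _ ≤ _ := mul_le_mul_of_nonneg_left key2 hv0

/-- Chebyshev -/
theorem cheb (hD : CB D) {s : ℝ} (hs : 0 < s) (hcv : CV D s) {u : Eu κ} (hu : ‖u‖ = 1) :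
    un D {x | 2 * Real.sqrt s ≤ |⟪u, x⟫_ℝ - ∫ y, ⟪u, y⟫_ℝ ∂(un D)|} ≤ ENNReal.ofReal (1 / 4) := by
  have hpos : 0 < volume D := lt_of_lt_of_le (isOpen_interior.measure_pos volume hD.int)
    (measure_mono interior_subset)
  have hp := Pool.Agent.Q188.SB.un_prob D hD.cpt hpos
  have hss : 0 < Real.sqrt s := Real.sqrt_pos.2 hs
  have h1 := ProbabilityTheory.meas_ge_le_variance_div_sq
    (Pool.Agent.Q188.SB.memLp_un D hD.cpt hpos (fun x : Eu κ => ⟪u, x⟫_ℝ) (by fun_prop))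
    (show 0 < 2 * Real.sqrt s by positivity)
  refine h1.trans (ENNReal.ofReal_le_ofReal ?_)
  rw [Pool.Agent.Q188.SB.var_un D hD.cpt hpos _ (by fun_prop), div_le_iff₀ (by positivity), mul_pow,
    Real.sq_sqrt hs.le]
  have h2 := hcv u
  rw [hu] at h2
  linarith

theorem toReal_le {p : ℝ≥0∞} {r : ℝ} (hr : 0 ≤ r) (h : p ≤ ENNReal.ofReal r) : p.toReal ≤ r :=
  (ENNReal.toReal_mono ENNReal.ofReal_ne_top h).trans (ENNReal.toReal_ofReal hr).le

/-- the distribution function of a linear functional, closed halfspaces -/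
theorem lcd1 (hD : CB D) {s : ℝ} (hs : 0 < s) (hcv : CV D s) {u : Eu κ} (hu : ‖u‖ = 1) :
    LCD (fun r => (un D {x | ⟪u, x⟫_ℝ ≤ r}).toReal)
      ((∫ y, ⟪u, y⟫_ℝ ∂(un D)) - 2 * Real.sqrt s) (4 * Real.sqrt s) := by
  have hpos : 0 < volume D := lt_of_lt_of_le (isOpen_interior.measure_pos volume hD.int)
    (measure_mono interior_subset)
  have hp := Pool.Agent.Q188.SB.un_prob D hD.cpt hpos
  have hm : ∀ r : ℝ, MeasurableSet {x : Eu κ | ⟪u, x⟫_ℝ ≤ r} := fun r =>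
    measurableSet_le (by fun_prop) measurable_const
  have hch := cheb hD hs hcv hu
  have hss : 0 < Real.sqrt s := Real.sqrt_pos.2 hs
  refine ⟨fun x => ENNReal.toReal_nonneg, fun a b hab => ?_, fun x y t ht0 ht1 => ?_,
    by positivity, ?_, ?_⟩
  · exact ENNReal.toReal_mono (measure_ne_top _ _) (measure_mono fun x hx => le_trans hx hab)
  · refine lc_un hD (hm _) (hm _) (hm _) ht0 ht1 fun p hp q hq => ?_
    have hp' : ⟪u, p⟫_ℝ ≤ x := hp
    have hq' : ⟪u, q⟫_ℝ ≤ y := hq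
    show ⟪u, (1 - t) • p + t • q⟫_ℝ ≤ (1 - t) * x + t * y
    rw [inner_add_right, real_inner_smul_right, real_inner_smul_right]
    exact add_le_add (mul_le_mul_of_nonneg_left hp' (by linarith))
      (mul_le_mul_of_nonneg_left hq' ht0.le)
  · refine toReal_le (by norm_num) ((measure_mono fun x hx => ?_).trans hch)
    have hx' : ⟪u, x⟫_ℝ ≤ (∫ y, ⟪u, y⟫_ℝ ∂(un D)) - 2 * Real.sqrt s := hx
    show 2 * Real.sqrt s ≤ |⟪u, x⟫_ℝ - ∫ y, ⟪u, y⟫_ℝ ∂(un D)|
    have := neg_abs_le (⟪u, x⟫_ℝ - ∫ y, ⟪u, y⟫_ℝ ∂(un D))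
    linarith
  · set b := (∫ y, ⟪u, y⟫_ℝ ∂(un D)) - 2 * Real.sqrt s + 4 * Real.sqrt s with hb
    have e1 : {x : Eu κ | ⟪u, x⟫_ℝ ≤ b}ᶜ ⊆
        {x | 2 * Real.sqrt s ≤ |⟪u, x⟫_ℝ - ∫ y, ⟪u, y⟫_ℝ ∂(un D)|} := by
      intro x hx
      have hx' : ¬ (⟪u, x⟫_ℝ ≤ b) := hx
      push Not at hx'
      show 2 * Real.sqrt s ≤ |⟪u, x⟫_ℝ - ∫ y, ⟪u, y⟫_ℝ ∂(un D)|
      have := le_abs_self (⟪u, x⟫_ℝ - ∫ y, ⟪u, y⟫_ℝ ∂(un D))
      linarith
    have h1 := toReal_le (by norm_num) ((measure_mono e1).trans hch)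
    rw [prob_compl_eq_one_sub (hm b), ENNReal.toReal_sub_of_le prob_le_one ENNReal.one_ne_top,
      ENNReal.toReal_one] at h1
    show 3 / 4 ≤ (un D {x | ⟪u, x⟫_ℝ ≤ b}).toReal
    linarith

/-- the distribution function of a linear functional, open halfspaces -/
theorem lcd2 (hD : CB D) {s : ℝ} (hs : 0 < s) (hcv : CV D s) {u : Eu κ} (hu : ‖u‖ = 1) :
    LCD (fun r => (un D {x | -r < ⟪u, x⟫_ℝ}).toReal)
      (-(∫ y, ⟪u, y⟫_ℝ ∂(un D)) - 2 * Real.sqrt s) (4 * Real.sqrt s) := by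
  have hpos : 0 < volume D := lt_of_lt_of_le (isOpen_interior.measure_pos volume hD.int)
    (measure_mono interior_subset)
  have hp := Pool.Agent.Q188.SB.un_prob D hD.cpt hpos
  have hm : ∀ r : ℝ, MeasurableSet {x : Eu κ | -r < ⟪u, x⟫_ℝ} := fun r =>
    measurableSet_lt measurable_const (by fun_prop)
  have hch := cheb hD hs hcv hu
  have hss : 0 < Real.sqrt s := Real.sqrt_pos.2 hs
  refine ⟨fun x => ENNReal.toReal_nonneg, fun a b hab => ?_, fun x y t ht0 ht1 => ?_,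
    by positivity, ?_, ?_⟩
  · refine ENNReal.toReal_mono (measure_ne_top _ _) (measure_mono fun x hx => ?_)
    have hx' : -a < ⟪u, x⟫_ℝ := hx
    show -b < ⟪u, x⟫_ℝ
    linarith
  · refine lc_un hD (hm _) (hm _) (hm _) ht0 ht1 fun p hp q hq => ?_
    have hp' : -x < ⟪u, p⟫_ℝ := hp
    have hq' : -y < ⟪u, q⟫_ℝ := hq
    show -((1 - t) * x + t * y) < ⟪u, (1 - t) • p + t • q⟫_ℝ
    rw [inner_add_right, real_inner_smul_right, real_inner_smul_right]
    have h1 := mul_lt_mul_of_pos_left hp' (show 0 < 1 - t by linarith)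
    have h2 := mul_lt_mul_of_pos_left hq' ht0
    linarith
  · refine toReal_le (by norm_num) ((measure_mono fun x hx => ?_).trans hch)
    have hx' : -(-(∫ y, ⟪u, y⟫_ℝ ∂(un D)) - 2 * Real.sqrt s) < ⟪u, x⟫_ℝ := hx
    show 2 * Real.sqrt s ≤ |⟪u, x⟫_ℝ - ∫ y, ⟪u, y⟫_ℝ ∂(un D)|
    have := le_abs_self (⟪u, x⟫_ℝ - ∫ y, ⟪u, y⟫_ℝ ∂(un D))
    linarith
  · set b := -(∫ y, ⟪u, y⟫_ℝ ∂(un D)) - 2 * Real.sqrt s + 4 * Real.sqrt s with hb
    have e1 : {x : Eu κ | -b < ⟪u, x⟫_ℝ}ᶜ ⊆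
        {x | 2 * Real.sqrt s ≤ |⟪u, x⟫_ℝ - ∫ y, ⟪u, y⟫_ℝ ∂(un D)|} := by
      intro x hx
      have hx' : ¬ (-b < ⟪u, x⟫_ℝ) := hx
      push Not at hx'
      show 2 * Real.sqrt s ≤ |⟪u, x⟫_ℝ - ∫ y, ⟪u, y⟫_ℝ ∂(un D)|
      have := neg_abs_le (⟪u, x⟫_ℝ - ∫ y, ⟪u, y⟫_ℝ ∂(un D))
      linarith
    have h1 := toReal_le (by norm_num) ((measure_mono e1).trans hch)
    rw [prob_compl_eq_one_sub (hm b), ENNReal.toReal_sub_of_le prob_le_one ENNReal.one_ne_top,
      ENNReal.toReal_one] at h1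
    show 3 / 4 ≤ (un D {x | -b < ⟪u, x⟫_ℝ}).toReal
    linarith

theorem thick (u : Eu κ) (hu : ‖u‖ = 1) (b : ℝ) {ε : ℝ} (hε : 0 < ε) :
    {x : Eu κ | ⟪u, x⟫_ℝ ≤ b + ε / 2} ⊆ Metric.thickening ε {x : Eu κ | ⟪u, x⟫_ℝ ≤ b} := by
  intro x hx
  have hx' : ⟪u, x⟫_ℝ ≤ b + ε / 2 := hx
  rw [Metric.mem_thickening_iff]
  rcases le_or_gt (⟪u, x⟫_ℝ) b with h | h
  · exact ⟨x, h, by rw [dist_self]; exact hε⟩
  · refine ⟨x - (⟪u, x⟫_ℝ - b) • u, ?_, ?_⟩
    · show ⟪u, x - (⟪u, x⟫_ℝ - b) • u⟫_ℝ ≤ b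
      rw [inner_sub_right, real_inner_smul_right, real_inner_self_eq_norm_sq, hu]
      linarith
    · rw [dist_eq_norm, sub_sub_cancel, norm_smul, hu, mul_one, Real.norm_of_nonneg (by linarith)]
      linarith

/-- halfspaces with unit normals -/
theorem unit_case (hD : CB D) {s : ℝ} (hs : 0 < s) (hcv : CV D s) {u : Eu κ} (hu : ‖u‖ = 1)
    (b : ℝ) : ENNReal.ofReal (Real.log (3 / 2) / 16 / Real.sqrt s) *
      min (un D {x | ⟪u, x⟫_ℝ ≤ b}) (1 - un D {x | ⟪u, x⟫_ℝ ≤ b}) ≤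
        bdr (un D) {x | ⟪u, x⟫_ℝ ≤ b} := by
  have hpos : 0 < volume D := lt_of_lt_of_le (isOpen_interior.measure_pos volume hD.int)
    (measure_mono interior_subset)
  have hp := Pool.Agent.Q188.SB.un_prob D hD.cpt hpos
  have hss : 0 < Real.sqrt s := Real.sqrt_pos.2 hs
  have hlog : 0 < Real.log (3 / 2) := Real.log_pos (by norm_num)
  have hm : ∀ r : ℝ, MeasurableSet {x : Eu κ | ⟪u, x⟫_ℝ ≤ r} := fun r =>
    measurableSet_le (by fun_prop) measurable_const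
  have L1 := lcd1 hD hs hcv hu
  have L2 := lcd2 hD hs hcv hu
  set F : ℝ → ℝ := fun r => (un D {x | ⟪u, x⟫_ℝ ≤ r}).toReal with hF
  have hFe : ∀ r, un D {x | ⟪u, x⟫_ℝ ≤ r} = ENNReal.ofReal (F r) := fun r =>
    (ENNReal.ofReal_toReal (measure_ne_top _ _)).symm
  have hF0 : ∀ r, 0 ≤ F r := fun r => ENNReal.toReal_nonneg
  have hF1 : ∀ r, F r ≤ 1 := fun r => by
    have := ENNReal.toReal_mono ENNReal.one_ne_top (prob_le_one (μ := un D) (s := {x | ⟪u, x⟫_ℝ ≤ r}))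
    rwa [ENNReal.toReal_one] at this
  have hG : ∀ r, (un D {x | -r < ⟪u, x⟫_ℝ}).toReal = 1 - F (-r) := fun r => by
    have e : {x : Eu κ | -r < ⟪u, x⟫_ℝ} = {x | ⟪u, x⟫_ℝ ≤ -r}ᶜ := by
      ext x; simp
    rw [e, prob_compl_eq_one_sub (hm _), ENNReal.toReal_sub_of_le prob_le_one ENNReal.one_ne_top,
      ENNReal.toReal_one]
  -- real inequality
  have key : ∀ ε : ℝ, 0 < ε → ε < 4 * Real.sqrt s → Real.log (3 / 2) / (4 * Real.sqrt s) * ε ≤ 1 →
      min (F b) (1 - F b) * (Real.log (3 / 2) / 16 / Real.sqrt s) * ε ≤ F (b + ε / 2) - F b := by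
    intro ε hε hε1 hε2
    rcases le_or_gt (F b) (1 / 2) with hb | hb
    · rw [min_eq_left (by linarith)]
      have h1 := L1.up (r := b) (ε := ε / 2) hb (by linarith) (by linarith)
      have h2 : F b * (1 + Real.log (3 / 2) / (4 * Real.sqrt s) * (ε / 2)) ≤ F (b + ε / 2) := h1
      have e : F b * (Real.log (3 / 2) / (4 * Real.sqrt s) * (ε / 2)) =
          2 * (F b * (Real.log (3 / 2) / 16 / Real.sqrt s) * ε) := by
        field_simp
        ring
      have h3 : 0 ≤ F b * (Real.log (3 / 2) / 16 / Real.sqrt s) * ε := by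
        have := hF0 b
        positivity
      linarith
    · rw [min_eq_right (by linarith)]
      have e0 : Real.log (3 / 2) / (4 * Real.sqrt s) * (ε / 2) ≤ 1 := by
        have : 0 ≤ Real.log (3 / 2) / (4 * Real.sqrt s) * ε := by positivity
        linarith
      have h1 := L2.down (r := -b) (ε := ε / 2) (by
        show (un D {x | -(-b) < ⟪u, x⟫_ℝ}).toReal ≤ 1 / 2
        rw [hG, neg_neg]
        linarith) (by linarith) (by linarith) e0
      have h2 : (un D {x | -(-b) < ⟪u, x⟫_ℝ}).toReal * (Real.log (3 / 2) / (4 * Real.sqrt s) / 2) *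
          (ε / 2) ≤ (un D {x | -(-b) < ⟪u, x⟫_ℝ}).toReal -
            (un D {x | -(-b - ε / 2) < ⟪u, x⟫_ℝ}).toReal := h1
      rw [hG, hG, neg_neg, show -(-b - ε / 2) = b + ε / 2 by ring] at h2
      have e : (1 - F b) * (Real.log (3 / 2) / (4 * Real.sqrt s) / 2) * (ε / 2) =
          (1 - F b) * (Real.log (3 / 2) / 16 / Real.sqrt s) * ε := by
        field_simp
        ring
      linarith
  have hmin : min (un D {x | ⟪u, x⟫_ℝ ≤ b}) (1 - un D {x | ⟪u, x⟫_ℝ ≤ b}) =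
      ENNReal.ofReal (min (F b) (1 - F b)) := by
    rw [hFe, ← ENNReal.ofReal_one, ← ENNReal.ofReal_sub _ (hF0 b)]
    exact (ENNReal.ofReal_mono.map_min).symm
  rw [hmin, ← ENNReal.ofReal_mul (by positivity)]
  unfold bdr
  refine le_liminf_of_le (by isBoundedDefault) ?_
  set δ := min (4 * Real.sqrt s) (4 * Real.sqrt s / Real.log (3 / 2)) with hδ
  have hδ0 : 0 < δ := by positivity
  filter_upwards [self_mem_nhdsWithin, mem_nhdsWithin_of_mem_nhds (Iio_mem_nhds hδ0)] with ε hε hεδ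
  have hε0 : 0 < ε := hε
  have hεδ' : ε < δ := hεδ
  have k1 := key ε hε0 (hεδ'.trans_le (min_le_left _ _)) (by
    have h1 : ε ≤ 4 * Real.sqrt s / Real.log (3 / 2) := hεδ'.le.trans (min_le_right _ _)
    calc Real.log (3 / 2) / (4 * Real.sqrt s) * ε
        ≤ Real.log (3 / 2) / (4 * Real.sqrt s) * (4 * Real.sqrt s / Real.log (3 / 2)) :=
          mul_le_mul_of_nonneg_left h1 (by positivity)
      _ = 1 := by field_simp)
  have h2 : un D {x | ⟪u, x⟫_ℝ ≤ b + ε / 2} ≤ un D (Metric.thickening ε {x | ⟪u, x⟫_ℝ ≤ b}) :=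
    measure_mono (thick u hu b hε0)
  calc ENNReal.ofReal (Real.log (3 / 2) / 16 / Real.sqrt s * min (F b) (1 - F b))
      ≤ ENNReal.ofReal ((F (b + ε / 2) - F b) / ε) := by
        refine ENNReal.ofReal_le_ofReal ?_
        rw [le_div_iff₀ hε0]
        linarith
    _ = (un D {x | ⟪u, x⟫_ℝ ≤ b + ε / 2} - un D {x | ⟪u, x⟫_ℝ ≤ b}) / ENNReal.ofReal ε := by
        rw [ENNReal.ofReal_div_of_pos hε0, ENNReal.ofReal_sub _ (hF0 b), ← hFe, ← hFe]
    _ ≤ _ := ENNReal.div_le_div_right (tsub_le_tsub_right h2 _) _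

/-- **variances control halfspaces** -/
theorem hlf : S_HLF := by
  refine ⟨Real.log (3 / 2) / 16, by
    have : 0 < Real.log (3 / 2) := Real.log_pos (by norm_num)
    positivity, ?_⟩
  intro κ _ D hD s hs0 hcv u b hu
  have hn : 0 < ‖u‖ := norm_pos_iff.2 hu
  have h1 := unit_case hD hs0 hcv (u := ‖u‖⁻¹ • u)
    (by rw [norm_smul, norm_inv, norm_norm, inv_mul_cancel₀ hn.ne']) (‖u‖⁻¹ * b)
  have e : {x : Eu κ | ⟪‖u‖⁻¹ • u, x⟫_ℝ ≤ ‖u‖⁻¹ * b} = hs u b := by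
    ext x
    show ⟪‖u‖⁻¹ • u, x⟫_ℝ ≤ ‖u‖⁻¹ * b ↔ ⟪u, x⟫_ℝ ≤ b
    rw [real_inner_smul_left]
    exact mul_le_mul_iff_right₀ (inv_pos.2 hn)
  rw [e] at h1
  exact h1

end Pool.Agent.Q193.EM.Hlf
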